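import Mathlib

/-! Weak sequencings of large sets: no window of length at most `t` sums to zero. -/

namespace Pool.Agent.Lib_helper26.WS

variable {G : Type*} [AddCommGroup G]

/-- no nonempty window of length at most `t` has sum zero -/
def Good (t : ℕ) (l : List G) : Prop :=
  ∀ w, w <:+: l → w ≠ [] → w.length ≤ t → w.sum ≠ 0

lemma Good.mono {t : ℕ} {l l' : List G} (h : Good t l) (h' : l' <:+: l) : Good t l' :=
  fun w hw => h w (hw.trans h')

lemma good_nil (t : ℕ) : Good t ([] : List G) := by
  intro w hw hne
  exact absurd (List.eq_nil_of_infix_nil hw) hne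

open Classical in
/-- values that cannot follow the list `l` -/
noncomputable def forb (t : ℕ) (l : List G) : Finset G :=
  (Finset.Ico 1 t).image fun j => -(l.drop (l.length - j)).sum

lemma forb_card (t : ℕ) (l : List G) : (forb t l).card ≤ t - 1 := by
  classical
  unfold forb
  exact Finset.card_image_le.trans (by simp)

lemma good_snoc {t : ℕ} {l : List G} (h : Good t l) {y : G} (hy : y ≠ 0) (hy' : y ∉ forb t l) :
    Good t (l ++ [y]) := by
  classical
  intro w hw hne hlen
  rw [List.infix_concat_iff] at hw
  rcases hw with hw | hw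
  · rw [List.suffix_concat_iff] at hw
    rcases hw with hw | ⟨u, rfl, hu⟩
    · exact absurd hw hne
    · rw [List.sum_append, List.sum_singleton]
      rcases Nat.eq_zero_or_pos u.length with h0 | h0
      · rw [List.length_eq_zero_iff.1 h0]; simpa using hy
      · intro h1
        apply hy'
        unfold forb
        rw [Finset.mem_image]
        simp only [List.length_append, List.length_singleton] at hlen
        refine ⟨u.length, by simp; omega, ?_⟩
        rw [← List.suffix_iff_eq_drop.1 hu, neg_eq_iff_add_eq_zero]
        exact h1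
  · exact h w hw hne hlen

/-- plain greedy extension by `n` elements -/
lemma greedy {t : ℕ} (n : ℕ) : ∀ (l : List G) (U : Finset G), Good t l → (0 : G) ∉ U →
    n + (t - 1) ≤ U.card →
    ∃ m : List G, m.Nodup ∧ (∀ x ∈ m, x ∈ U) ∧ m.length = n ∧ Good t (l ++ m) := by
  classical
  induction n with
  | zero =>
    intro l U hl _ _
    exact ⟨[], by simp, by simp, rfl, by simpa using hl⟩
  | succ n ih =>
    intro l U hl h0 hU
    have hf := forb_card t l
    obtain ⟨y, hyU, hyf⟩ : ∃ y ∈ U, y ∉ forb t l := by
      apply Finset.exists_mem_notMem_of_card_lt_card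
      omega
    have hy0 : y ≠ 0 := by rintro rfl; exact h0 hyU
    obtain ⟨m, hm1, hm2, hm3, hm4⟩ := ih (l ++ [y]) (U.erase y) (good_snoc hl hy0 hyf)
      (fun h => h0 (Finset.mem_of_mem_erase h)) (by rw [Finset.card_erase_of_mem hyU]; omega)
    refine ⟨y :: m, ?_, ?_, by simp [hm3], by simpa using hm4⟩
    · rw [List.nodup_cons]
      exact ⟨fun h => (Finset.mem_erase.1 (hm2 y h)).1 rfl, hm1⟩
    · intro x hx
      rcases List.mem_cons.1 hx with rfl | hx
      · exact hyU
      · exact Finset.mem_of_mem_erase (hm2 x hx)

/-- greedy extension until at most `t - 1` elements are left -/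
lemma fill {t : ℕ} (l : List G) (U : Finset G) (hl : Good t l) (h0 : (0 : G) ∉ U) :
    ∃ m : List G, m.Nodup ∧ (∀ x ∈ m, x ∈ U) ∧ U.card ≤ m.length + (t - 1) ∧
      Good t (l ++ m) := by
  rcases Nat.lt_or_ge U.card (t - 1) with h | h
  · exact ⟨[], by simp, by simp, by simp; omega, by simpa using hl⟩
  · obtain ⟨m, h1, h2, h3, h4⟩ := greedy (t := t) (U.card - (t - 1)) l U hl h0 (by omega)
    exact ⟨m, h1, h2, by omega, h4⟩

/-- place all elements of `H` -/
lemma heavy {t : ℕ} (n : ℕ) : ∀ (l : List G) (U H : Finset G), H.card = n → Good t l →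
    (0 : G) ∉ U → H ⊆ U → 2 * (t - 1) + min n (t - 1) + n ≤ U.card →
    ∃ m : List G, m.Nodup ∧ (∀ x ∈ m, x ∈ U) ∧ (∀ x ∈ H, x ∈ m) ∧ Good t (l ++ m) := by
  classical
  induction n with
  | zero =>
    intro l U H hH hl _ _ _
    have : H = ∅ := Finset.card_eq_zero.1 hH
    exact ⟨[], by simp, by simp, by simp [this], by simpa using hl⟩
  | succ n ih =>
    intro l U H hH hl h0 hHU hU
    have hf := forb_card t l
    rcases Nat.lt_or_ge n (t - 1) with hn | hn
    · -- few heavy elements: use a separator
      obtain ⟨h, hh⟩ : H.Nonempty := by rw [← Finset.card_pos]; omega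
      have hh0 : h ≠ 0 := by rintro rfl; exact h0 (hHU hh)
      set F2 : Finset G := (Finset.range (t - 1)).image
        fun j => -h - (l.drop (l.length - j)).sum with hF2
      have hF2c : F2.card ≤ t - 1 := Finset.card_image_le.trans (by simp)
      obtain ⟨y, hyU, hyf⟩ : ∃ y ∈ U \ H, y ∉ forb t l ∪ F2 := by
        apply Finset.exists_mem_notMem_of_card_lt_card
        have h1 := Finset.card_union_le (forb t l) F2
        rw [Finset.card_sdiff_of_subset hHU]
        omega
      rw [Finset.mem_sdiff] at hyU
      rw [Finset.mem_union, not_or] at hyf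
      have hy0 : y ≠ 0 := by rintro rfl; exact h0 hyU.1
      have hg1 := good_snoc hl hy0 hyf.1
      have hg2 : Good t (l ++ [y] ++ [h]) := by
        apply good_snoc hg1 hh0
        intro hmem
        unfold forb at hmem
        rw [Finset.mem_image] at hmem
        obtain ⟨j, hj, hj'⟩ := hmem
        rw [Finset.mem_Ico] at hj
        apply hyf.2
        rw [hF2, Finset.mem_image]
        refine ⟨j - 1, by simp; omega, ?_⟩
        have h2 : (l ++ [y]).drop ((l ++ [y]).length - j) =
            l.drop (l.length - (j - 1)) ++ [y] := by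
          rw [List.length_append, List.length_singleton]
          have : l.length + 1 - j = l.length - (j - 1) := by omega
          rw [this, List.drop_append_of_le_length (by omega)]
        rw [h2, List.sum_append, List.sum_singleton] at hj'
        rw [← hj']; abel
      have hcard : ((U.erase y).erase h).card = U.card - 2 := by
        rw [Finset.card_erase_of_mem, Finset.card_erase_of_mem hyU.1]
        · omega
        · rw [Finset.mem_erase]
          exact ⟨fun h' => hyU.2 (h' ▸ hh), hHU hh⟩
      obtain ⟨m, hm1, hm2, hm3, hm4⟩ := ih (l ++ [y] ++ [h]) ((U.erase y).erase h) (H.erase h)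
        (by rw [Finset.card_erase_of_mem hh]; omega) hg2
        (fun h' => h0 (Finset.mem_of_mem_erase (Finset.mem_of_mem_erase h')))
        (by
          intro x hx
          rw [Finset.mem_erase] at hx
          rw [Finset.mem_erase, Finset.mem_erase]
          exact ⟨hx.1, fun h' => hyU.2 (h' ▸ hx.2), hHU hx.2⟩)
        (by rw [hcard]; omega)
      have hyh : y ≠ h := fun h' => hyU.2 (h' ▸ hh)
      refine ⟨y :: h :: m, ?_, ?_, ?_, by simpa using hm4⟩
      · rw [List.nodup_cons, List.nodup_cons]
        refine ⟨?_, ?_, hm1⟩
        · intro h'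
          rcases List.mem_cons.1 h' with h' | h'
          · exact hyh h'
          · have := hm2 y h'
            simp at this
        · intro h'
          have := hm2 h h'
          simp at this
      · intro x hx
        rcases List.mem_cons.1 hx with rfl | hx
        · exact hyU.1
        · rcases List.mem_cons.1 hx with rfl | hx
          · exact hHU hh
          · exact Finset.mem_of_mem_erase (Finset.mem_of_mem_erase (hm2 x hx))
      · intro x hx
        by_cases hxh : x = h
        · subst hxh; simp
        · have := hm3 x (Finset.mem_erase.2 ⟨hxh, hx⟩)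
          simp [this]
    · -- many heavy elements: place one directly
      obtain ⟨h, hh, hhf⟩ : ∃ h ∈ H, h ∉ forb t l := by
        apply Finset.exists_mem_notMem_of_card_lt_card
        omega
      have hh0 : h ≠ 0 := by rintro rfl; exact h0 (hHU hh)
      obtain ⟨m, hm1, hm2, hm3, hm4⟩ := ih (l ++ [h]) (U.erase h) (H.erase h)
        (by rw [Finset.card_erase_of_mem hh]; omega) (good_snoc hl hh0 hhf)
        (fun h' => h0 (Finset.mem_of_mem_erase h')) (Finset.erase_subset_erase _ hHU)
        (by rw [Finset.card_erase_of_mem (hHU hh)]; omega)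
      refine ⟨h :: m, ?_, ?_, ?_, by simpa using hm4⟩
      · rw [List.nodup_cons]
        exact ⟨fun h' => (Finset.mem_erase.1 (hm2 h h')).1 rfl, hm1⟩
      · intro x hx
        rcases List.mem_cons.1 hx with rfl | hx
        · exact hHU hh
        · exact Finset.mem_of_mem_erase (hm2 x hx)
      · intro x hx
        by_cases hxh : x = h
        · subst hxh; simp
        · have := hm3 x (Finset.mem_erase.2 ⟨hxh, hx⟩)
          simp [this]

/-! ### slots -/

/-- blocks `c i, ..., c (i + n)` with the lists `o` inserted in between -/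
def FF (c o : ℕ → List G) : ℕ → ℕ → List G
  | i, 0 => c i
  | i, n + 1 => c i ++ (o i ++ FF c o (i + 1) n)

/-- `r` may be inserted between the blocks `i` and `i + 1` -/
def SlotOk (t : ℕ) (c : ℕ → List G) (i : ℕ) (r : G) : Prop :=
  ∀ u v, u <:+ c i → v <+: c (i + 1) → u.length + v.length + 1 ≤ t → u.sum + r + v.sum ≠ 0

omit [AddCommGroup G] in
lemma pre_FF (c o : ℕ → List G) (i n : ℕ) : c i <+: FF c o i n := by
  cases n with
  | zero => exact List.prefix_rfl
  | succ n => exact List.prefix_append _ _

lemma good_FF {t : ℕ} (c o : ℕ → List G) (n : ℕ) : ∀ i,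
    (∀ j, i < j → j ≤ i + n → t - 1 ≤ (c j).length) →
    Good t (FF c (fun _ => []) i n) →
    (∀ j, i ≤ j → j < i + n → o j = [] ∨ ∃ r, o j = [r] ∧ SlotOk t c j r) →
    Good t (FF c o i n) := by
  induction n with
  | zero => intro i _ h _; exact h
  | succ n ih =>
    intro i hlen hM ho
    rw [FF, List.nil_append] at hM
    have hM' : Good t (FF c (fun _ => []) (i + 1) n) := hM.mono List.infix_append_right
    have hF : Good t (FF c o (i + 1) n) := ih (i + 1) (fun j h1 h2 => hlen j (by omega) (by omega))
      hM' (fun j h1 h2 => ho j (by omega) (by omega))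
    have hci : Good t (c i) := hM.mono List.infix_append_left
    have hl1 : t - 1 ≤ (c (i + 1)).length := hlen (i + 1) (by omega) (by omega)
    -- short initial segments of the rest lie in the next block
    have hshort : ∀ v, v <+: FF c o (i + 1) n → v.length ≤ t - 1 → v <+: c (i + 1) := by
      intro v hv hv'
      exact List.prefix_of_prefix_length_le hv (pre_FF c o (i + 1) n) (hv'.trans hl1)
    rw [FF]
    intro w hw hne hwl
    rcases ho i le_rfl (by omega) with ho | ⟨r, ho, hr⟩
    · rw [ho, List.nil_append, List.infix_append_iff] at hw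
      rcases hw with hw | hw | ⟨u, v, rfl, hu, hv⟩
      · exact hci w hw hne hwl
      · exact hF w hw hne hwl
      · rw [List.length_append] at hwl
        rcases Nat.eq_zero_or_pos u.length with h0 | h0
        · rw [List.length_eq_zero_iff] at h0
          subst h0
          rw [List.nil_append] at hne ⊢
          exact hF v hv.isInfix hne (by simpa using hwl)
        · have hv' := hshort v hv (by omega)
          apply hM (u ++ v) _ hne (by rw [List.length_append]; exact hwl)
          rw [List.infix_append_iff]
          exact Or.inr (Or.inr ⟨u, v, rfl, hu, hv'.trans (pre_FF _ _ _ _)⟩)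
    · rw [ho, List.singleton_append, List.infix_append_iff] at hw
      have hcons : ∀ v', v' <+: r :: FF c o (i + 1) n → v' ≠ [] →
          ∃ v, v' = r :: v ∧ v <+: FF c o (i + 1) n := by
        intro v' hv' hne'
        rw [List.prefix_cons_iff] at hv'
        rcases hv' with hv' | ⟨v, hv1, hv2⟩
        · exact absurd hv' hne'
        · exact ⟨v, hv1, hv2⟩
      rcases hw with hw | hw | ⟨u, v', rfl, hu, hv'⟩
      · exact hci w hw hne hwl
      · rw [List.infix_cons_iff] at hw
        rcases hw with hw | hw
        · obtain ⟨v, rfl, hv⟩ := hcons w hw hne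
          rw [List.length_cons] at hwl
          have := hr [] v List.nil_suffix (hshort v hv (by omega)) (by simp; omega)
          simpa using this
        · exact hF w hw hne hwl
      · by_cases hv0 : v' = []
        · subst hv0
          rw [List.append_nil] at hne hwl ⊢
          exact hci u hu.isInfix hne hwl
        · obtain ⟨v, rfl, hv⟩ := hcons v' hv' hv0
          rw [List.length_append, List.length_cons] at hwl
          have := hr u v hu (hshort v hv (by omega)) (by omega)
          rw [List.sum_append, List.sum_cons, ← add_assoc]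
          exact this

omit [AddCommGroup G] in
lemma FF_congr (c o o' : ℕ → List G) (n : ℕ) : ∀ i, (∀ j, i ≤ j → j < i + n → o j = o' j) →
    FF c o i n = FF c o' i n := by
  induction n with
  | zero => intro i _; rfl
  | succ n ih =>
    intro i h
    rw [FF, FF, h i le_rfl (by omega), ih (i + 1) fun j h1 h2 => h j (by omega) (by omega)]

omit [AddCommGroup G] in
lemma FF_update (c o : ℕ → List G) (r : G) (j : ℕ) (hj : o j = []) (n : ℕ) : ∀ i, i ≤ j →
    j < i + n → (FF c (Function.update o j [r]) i n).Perm (r :: FF c o i n) := by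
  induction n with
  | zero => intro i h1 h2; omega
  | succ n ih =>
    intro i h1 h2
    rw [FF, FF]
    rcases Nat.eq_or_lt_of_le h1 with h | h
    · subst h
      rw [Function.update_self, hj, List.nil_append,
        FF_congr c (Function.update o i [r]) o n (i + 1)
          (fun j h3 _ => Function.update_of_ne (by omega) _ _)]
      rw [List.singleton_append]
      exact List.perm_middle
    · rw [Function.update_of_ne (by omega)]
      refine (List.Perm.append_left _ (List.Perm.append_left _ (ih (i + 1) (by omega)
        (by omega)))).trans ?_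
      rw [← List.append_assoc, ← List.append_assoc]
      exact List.perm_middle

open Classical in
lemma insert_all {t S : ℕ} (c : ℕ → List G) (R : List G) : ∀ (T : Finset ℕ) (o : ℕ → List G),
    (∀ j, j < S → o j = [] ∨ ∃ r, o j = [r] ∧ SlotOk t c j r) →
    (∀ j, j < S → j ∉ T → o j = []) →
    (∀ r ∈ R, ((Finset.range S).filter fun j => ¬ SlotOk t c j r).card + T.card + R.length ≤ S) →
    ∃ o' : ℕ → List G, (∀ j, j < S → o' j = [] ∨ ∃ r, o' j = [r] ∧ SlotOk t c j r) ∧
      (FF c o' 0 S).Perm (R ++ FF c o 0 S) := by
  induction R with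
  | nil => intro T o h1 _ _; exact ⟨o, h1, by simp⟩
  | cons r R ih =>
    intro T o h1 h2 h3
    obtain ⟨j, hjS, hj⟩ : ∃ j ∈ Finset.range S,
        j ∉ ((Finset.range S).filter fun j => ¬ SlotOk t c j r) ∪ T := by
      apply Finset.exists_mem_notMem_of_card_lt_card
      have := h3 r (by simp)
      have h4 := Finset.card_union_le ((Finset.range S).filter fun j => ¬ SlotOk t c j r) T
      rw [List.length_cons] at this
      rw [Finset.card_range]
      omega
    rw [Finset.mem_union, not_or, Finset.mem_filter, not_and, not_not] at hj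
    have hok : SlotOk t c j r := hj.1 hjS
    have hjS' : j < S := Finset.mem_range.1 hjS
    obtain ⟨o', ho', hp⟩ := ih (insert j T) (Function.update o j [r])
      (by
        intro i hi
        by_cases hij : i = j
        · subst hij
          rw [Function.update_self]
          exact Or.inr ⟨r, rfl, hok⟩
        · rw [Function.update_of_ne hij]
          exact h1 i hi)
      (by
        intro i hi hiT
        rw [Finset.mem_insert, not_or] at hiT
        rw [Function.update_of_ne hiT.1]
        exact h2 i hi hiT.2)
      (by
        intro r' hr'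
        have := h3 r' (by simp [hr'])
        rw [List.length_cons] at this
        have h5 := Finset.card_insert_le j T
        omega)
    refine ⟨o', ho', hp.trans ?_⟩
    refine (List.Perm.append_left R (FF_update c o r j (h2 j hjS' hj.2) S 0 (by omega)
      (by omega))).trans ?_
    exact List.perm_middle

open Classical in
/-- values that cannot be inserted in slot `i` -/
noncomputable def bad (t : ℕ) (c : ℕ → List G) (i : ℕ) : Finset G :=
  ((Finset.range t).sigma fun a => Finset.range (t - a)).image
    fun p => -(((c i).drop ((c i).length - p.1)).sum + ((c (i + 1)).take p.2).sum)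

lemma bad_card (t : ℕ) (c : ℕ → List G) (i : ℕ) : 2 * (bad t c i).card ≤ t * (t + 1) := by
  classical
  have h1 : (bad t c i).card ≤ ∑ a ∈ Finset.range t, (t - a) := by
    unfold bad
    refine Finset.card_image_le.trans ?_
    rw [Finset.card_sigma]
    simp
  have h2 : ∀ t : ℕ, 2 * ∑ a ∈ Finset.range t, (t - a) = t * (t + 1) := by
    intro t
    induction t with
    | zero => simp
    | succ t ih =>
      rw [Finset.sum_range_succ']
      have : ∑ a ∈ Finset.range t, (t + 1 - (a + 1)) = ∑ a ∈ Finset.range t, (t - a) := by
        apply Finset.sum_congr rfl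
        intro a _
        omega
      rw [this, mul_add, ih]
      simp
      ring
  have := h2 t
  omega

lemma slotOk_of_notMem_bad {t : ℕ} {c : ℕ → List G} {i : ℕ} {r : G} (h : r ∉ bad t c i) :
    SlotOk t c i r := by
  classical
  intro u v hu hv hl h0
  apply h
  unfold bad
  rw [Finset.mem_image]
  refine ⟨⟨u.length, v.length⟩, ?_, ?_⟩
  · rw [Finset.mem_sigma]
    simp only [Finset.mem_range]
    omega
  · simp only
    rw [← List.suffix_iff_eq_drop.1 hu, ← List.prefix_iff_eq_take.1 hv, neg_eq_iff_add_eq_zero,
      ← h0]
    abel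

/-! ### assembly -/

omit [AddCommGroup G] in
lemma FF_chunks (q : ℕ) (m : List G) (n : ℕ) : ∀ i,
    FF (fun i => (m.drop (i * q)).take q) (fun _ => []) i n = (m.drop (i * q)).take ((n + 1) * q) := by
  induction n with
  | zero => intro i; simp [FF]
  | succ n ih =>
    intro i
    rw [FF, ih, List.nil_append]
    have h1 : (n + 1 + 1) * q = q + (n + 1) * q := by ring
    have h2 : (i + 1) * q = i * q + q := by ring
    rw [h1, List.take_add, List.drop_drop, h2]

omit [AddCommGroup G] in
lemma FF_last (c0 o : ℕ → List G) (S : ℕ) (m : List G) (n : ℕ) : ∀ i, i + n = S →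
    FF (fun i => if i = S then c0 S ++ m else c0 i) o i n = FF c0 o i n ++ m := by
  induction n with
  | zero =>
    intro i hi
    have : i = S := by omega
    subst this
    simp [FF]
  | succ n ih =>
    intro i hi
    rw [FF, FF, ih (i + 1) (by omega)]
    have : i ≠ S := by omega
    simp [this]

lemma slotOk_last {t : ℕ} {c0 : ℕ → List G} {S : ℕ} {m : List G} (hS : t - 1 ≤ (c0 S).length)
    {i : ℕ} (hi : i < S) {r : G} (h : SlotOk t c0 i r) :
    SlotOk t (fun i => if i = S then c0 S ++ m else c0 i) i r := by
  intro u v hu hv hl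
  have h1 : i ≠ S := by omega
  simp only [h1, if_false] at hu
  by_cases h2 : i + 1 = S
  · simp only [h2, if_true] at hv
    apply h u v hu _ hl
    rw [h2]
    exact List.prefix_of_prefix_length_le hv (List.prefix_append _ _) (by omega)
  · simp only [h2, if_false] at hv
    exact h u v hu hv hl

/-- main theorem, list version -/
theorem exists_list {t : ℕ} (ht : 0 < t) (A : Finset G) (h0 : (0 : G) ∉ A)
    (hA : 3 * t ^ 2 + t ≤ A.card) :
    ∃ L : List G, L.Nodup ∧ (∀ x, x ∈ L ↔ x ∈ A) ∧ Good t L := by
  classical
  obtain ⟨q, rfl⟩ : ∃ q, t = q + 1 := ⟨t - 1, by omega⟩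
  set S := 2 * q + 1 with hS
  -- first part: `S + 1` blocks of length `q`
  obtain ⟨m1, hm1, hm1A, hm1l, hg1⟩ := greedy (t := q + 1) ((S + 1) * q) [] A (good_nil _) h0
    (by rw [hS]; simp only [Nat.add_sub_cancel]; nlinarith)
  rw [List.nil_append] at hg1
  set c0 : ℕ → List G := fun i => (m1.drop (i * q)).take q with hc0
  have hc0l : ∀ j, j ≤ S → (c0 j).length = q := by
    intro j hj
    rw [hc0]
    simp only [List.length_take, List.length_drop, hm1l]
    have : j * q ≤ S * q := Nat.mul_le_mul_right q hj
    have h2 : (S + 1) * q = S * q + q := by ring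
    omega
  have hFF0 : FF c0 (fun _ => []) 0 S = m1 := by
    rw [hc0, FF_chunks]
    simp [← hm1l]
  -- heavy elements
  set U1 := A \ m1.toFinset with hU1
  have hU1c : U1.card = A.card - (S + 1) * q := by
    rw [hU1, Finset.card_sdiff_of_subset, List.toFinset_card_of_nodup hm1, hm1l]
    intro x hx
    exact hm1A x (List.mem_toFinset.1 hx)
  have hU10 : (0 : G) ∉ U1 := fun h => h0 (Finset.mem_sdiff.1 h).1
  set bc : G → ℕ := fun r => ((Finset.range S).filter fun j => r ∈ bad (q + 1) c0 j).card with hbc
  set H := U1.filter fun r => S < bc r + q with hH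
  have hHU : H ⊆ U1 := Finset.filter_subset _ _
  have hHc : 2 * H.card ≤ (q + 1) * (2 * q + 1) := by
    have h1 : H.card * (q + 2) ≤ ∑ r ∈ H, bc r := by
      rw [← smul_eq_mul, ← Finset.sum_const]
      apply Finset.sum_le_sum
      intro r hr
      have := (Finset.mem_filter.1 hr).2
      omega
    have h2 : ∑ r ∈ H, bc r ≤ ∑ j ∈ Finset.range S, (bad (q + 1) c0 j).card := by
      have h3 : ∀ r, bc r = ∑ j ∈ Finset.range S, if r ∈ bad (q + 1) c0 j then 1 else 0 := by
        intro r
        rw [hbc]
        simp only [Finset.card_filter]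
      simp only [h3]
      rw [Finset.sum_comm]
      apply Finset.sum_le_sum
      intro j _
      rw [← Finset.card_filter]
      apply Finset.card_le_card
      intro x hx
      exact (Finset.mem_filter.1 hx).2
    have h4 : 2 * ∑ j ∈ Finset.range S, (bad (q + 1) c0 j).card ≤ S * ((q + 1) * (q + 2)) := by
      rw [Finset.mul_sum]
      calc ∑ j ∈ Finset.range S, 2 * (bad (q + 1) c0 j).card
          ≤ ∑ j ∈ Finset.range S, (q + 1) * (q + 2) :=
            Finset.sum_le_sum fun j _ => bad_card (q + 1) c0 j
        _ = S * ((q + 1) * (q + 2)) := by simp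
    have h5 : (2 * H.card) * (q + 2) ≤ ((q + 1) * (2 * q + 1)) * (q + 2) := by
      calc (2 * H.card) * (q + 2) = 2 * (H.card * (q + 2)) := by ring
        _ ≤ S * ((q + 1) * (q + 2)) := by omega
        _ = ((q + 1) * (2 * q + 1)) * (q + 2) := by rw [hS]; ring
    exact Nat.le_of_mul_le_mul_right h5 (by omega)
  -- place the heavy elements
  obtain ⟨m2, hm2, hm2U, hm2H, hg2⟩ := heavy (t := q + 1) H.card m1 U1 H rfl hg1 hU10 hHU
    (by
      rw [hU1c, hS]
      simp only [Nat.add_sub_cancel]
      have h6 : min H.card q ≤ q := min_le_right _ _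
      have h7 : (2 * q + 1 + 1) * q = 2 * q ^ 2 + 2 * q := by ring
      have h8 : 3 * (q + 1) ^ 2 + (q + 1) = 3 * q ^ 2 + 7 * q + 4 := by ring
      have h9 : (q + 1) * (2 * q + 1) = 2 * q ^ 2 + 3 * q + 1 := by ring
      rw [h7]
      rw [h8] at hA
      rw [h9] at hHc
      omega)
  -- fill
  set U2 := U1 \ m2.toFinset with hU2
  have hU20 : (0 : G) ∉ U2 := fun h => hU10 (Finset.mem_sdiff.1 h).1
  obtain ⟨m3, hm3, hm3U, hm3c, hg3⟩ := fill (t := q + 1) (m1 ++ m2) U2 hg2 hU20
  set R := (U2 \ m3.toFinset).toList with hR
  have hRl : R.length ≤ q := by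
    rw [hR, Finset.length_toList, Finset.card_sdiff_of_subset, List.toFinset_card_of_nodup hm3]
    · simp only [Nat.add_sub_cancel] at hm3c
      omega
    · intro x hx
      exact hm3U x (List.mem_toFinset.1 hx)
  -- insert the remaining elements
  set c : ℕ → List G := fun i => if i = S then c0 S ++ (m2 ++ m3) else c0 i with hc
  have hFFc : FF c (fun _ => []) 0 S = m1 ++ (m2 ++ m3) := by
    rw [hc, FF_last c0 _ S (m2 ++ m3) S 0 (by omega), hFF0]
  obtain ⟨o, ho, hp⟩ := insert_all (t := q + 1) (S := S) c R ∅ (fun _ => [])
    (fun j _ => Or.inl rfl) (fun j _ _ => rfl)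
    (by
      intro r hr
      rw [hR, Finset.mem_toList, Finset.mem_sdiff] at hr
      have hrU2 := hr.1
      rw [hU2, Finset.mem_sdiff, List.mem_toFinset] at hrU2
      have hrH : r ∉ H := fun h => hrU2.2 (hm2H r h)
      rw [hH, Finset.mem_filter, not_and, not_lt] at hrH
      have h1 := hrH hrU2.1
      have h2 : ((Finset.range S).filter fun j => ¬ SlotOk (q + 1) c j r).card ≤ bc r := by
        apply Finset.card_le_card
        intro j hj
        rw [Finset.mem_filter] at hj ⊢
        refine ⟨hj.1, ?_⟩
        by_contra hb
        apply hj.2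
        exact slotOk_last (by rw [hc0l S le_rfl]; simp) (Finset.mem_range.1 hj.1)
          (slotOk_of_notMem_bad hb)
      rw [Finset.card_empty]
      omega)
  rw [hFFc] at hp
  have hgood : Good (q + 1) (FF c o 0 S) := by
    apply good_FF
    · intro j _ hj
      rw [hc]
      simp only
      split_ifs with h
      · rw [List.length_append, hc0l S le_rfl]; simp
      · rw [hc0l j (by omega)]; simp
    · rw [hFFc, ← List.append_assoc]; exact hg3
    · intro j _ hj
      exact ho j (by omega)
  refine ⟨FF c o 0 S, ?_, ?_, hgood⟩
  · rw [hp.nodup_iff, List.nodup_append]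
    refine ⟨Finset.nodup_toList _, ?_, ?_⟩
    · rw [List.nodup_append]
      refine ⟨hm1, ?_, ?_⟩
      · rw [List.nodup_append]
        refine ⟨hm2, hm3, ?_⟩
        rintro x hx y hy rfl
        have := hm3U x hy
        rw [hU2, Finset.mem_sdiff, List.mem_toFinset] at this
        exact this.2 hx
      · rintro x hx y hy rfl
        have hxU1 : x ∈ U1 := by
          rcases List.mem_append.1 hy with hy | hy
          · exact hm2U x hy
          · exact (Finset.mem_sdiff.1 (hm3U x hy)).1
        rw [hU1, Finset.mem_sdiff, List.mem_toFinset] at hxU1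
        exact hxU1.2 hx
    · rintro x hx y hy rfl
      rw [hR, Finset.mem_toList, Finset.mem_sdiff, hU2, Finset.mem_sdiff, hU1, Finset.mem_sdiff,
        List.mem_toFinset, List.mem_toFinset, List.mem_toFinset] at hx
      rcases List.mem_append.1 hy with hy | hy
      · exact hx.1.1.2 hy
      · rcases List.mem_append.1 hy with hy | hy
        · exact hx.1.2 hy
        · exact hx.2 hy
  · intro x
    rw [hp.mem_iff, List.mem_append, List.mem_append, List.mem_append, hR, Finset.mem_toList,
      Finset.mem_sdiff, hU2, Finset.mem_sdiff, hU1, Finset.mem_sdiff,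
        List.mem_toFinset, List.mem_toFinset, List.mem_toFinset]
    constructor
    · rintro (h | h | h | h)
      · exact h.1.1.1
      · exact hm1A x h
      · exact (Finset.mem_sdiff.1 (hm2U x h)).1
      · exact (Finset.mem_sdiff.1 (Finset.mem_sdiff.1 (hm3U x h)).1).1
    · intro h
      by_cases h1 : x ∈ m1
      · exact Or.inr (Or.inl h1)
      · by_cases h2 : x ∈ m2
        · exact Or.inr (Or.inr (Or.inl h2))
        · by_cases h3 : x ∈ m3
          · exact Or.inr (Or.inr (Or.inr h3))
          · exact Or.inl ⟨⟨⟨h, h1⟩, h2⟩, h3⟩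

/-- main theorem -/
theorem main {t : ℕ} (ht : 0 < t) (A : Finset G) (h0 : (0 : G) ∉ A)
    (hA : 3 * t ^ 2 + t ≤ A.card) :
    ∃ a : Fin A.card → G, Function.Injective a ∧ Set.range a = (A : Set G) ∧
      ∀ i j : ℕ, i < j → j ≤ A.card → j ≤ i + t →
        ∑ m : Fin A.card with m.val < i, a m ≠ ∑ m : Fin A.card with m.val < j, a m := by
  classical
  obtain ⟨L, hL1, hL2, hL3⟩ := exists_list ht A h0 hA
  have hLA : L.toFinset = A := by
    ext x; rw [List.mem_toFinset, hL2]
  have hlen : L.length = A.card := by
    rw [← hLA, List.toFinset_card_of_nodup hL1]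
  refine ⟨fun m => L.get (m.cast hlen.symm), ?_, ?_, ?_⟩
  · intro x y hxy
    have := hL1.injective_get hxy
    simpa [Fin.ext_iff] using this
  · ext x
    rw [Finset.mem_coe, ← hL2, List.mem_iff_get]
    constructor
    · rintro ⟨m, rfl⟩
      exact ⟨_, rfl⟩
    · rintro ⟨m, rfl⟩
      exact ⟨m.cast hlen, rfl⟩
  · have hsum : ∀ i : ℕ, i ≤ A.card →
        ∑ m : Fin A.card with m.val < i, L.get (m.cast hlen.symm) = (L.take i).sum := by
      intro i hi
      have h1 : ∀ N (hN : L.length = N), ∑ m : Fin N with m.val < i, L.get (m.cast hN.symm) =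
          ∑ m : Fin L.length with m.val < i, L.get m := by
        intro N hN
        subst hN
        rfl
      rw [h1 _ hlen, ← List.sum_take_ofFn, List.ofFn_get]
    intro i j hij hj hjt
    rw [hsum i (by omega), hsum j hj]
    intro h
    have h2 : L.take j = L.take i ++ (L.drop i).take (j - i) := by
      rw [← List.take_add]
      congr 1
      omega
    rw [h2, List.sum_append, left_eq_add] at h
    refine hL3 ((L.drop i).take (j - i)) ?_ ?_ ?_ h
    · exact (List.take_prefix _ _).isInfix.trans (List.drop_suffix _ _).isInfix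
    · intro h3
      have := congrArg List.length h3
      rw [List.length_take, List.length_drop, List.length_nil] at this
      omega
    · rw [List.length_take]
      omega

end Pool.Agent.Lib_helper26.WS
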